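import Pool.Agent.P8H88.SW.Uni3

set_option autoImplicit false

/-!
# SW/UNI: the symplectic representation of dimension four of `sp(4)` is unique (from TYP)

Package of project SW (helper30), end of the proof.
-/

open Module

namespace Pool.Agent.P8H88.SW

open Pool.Agent.P8H30.SW

theorem uni (hT : S_TYP) : S_UNI := by
  classical
  intro W W' _ _ _ _ _ _ ω ω' hω hω' hd hd' R hbr hsk hex hex' hz hz'
  obtain ⟨b, hb⟩ := exists_dar hω hd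
  have huniq : ∀ (x : Module.End ℂ W) (y y' : Module.End ℂ W'), (x, y) ∈ R → (x, y') ∈ R → y = y' := by
    intro x y y' h1 h2
    have h3 := R.sub_mem h1 h2
    have e : ((x, y) : Module.End ℂ W × Module.End ℂ W') - (x, y') = (0, y - y') := by simp
    rw [e] at h3
    exact sub_eq_zero.1 (hz' _ h3)
  choose! ψ hψ using hex
  have hs0 : Skew ω 0 := (SP ω).zero_mem
  have hψs : ∀ x, Skew ω x → Skew ω' (ψ x) := fun x hx => (hsk _ (hψ x hx)).2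
  have hψb : ∀ x y, Skew ω x → Skew ω y → ψ x * ψ y - ψ y * ψ x = ψ (x * y - y * x) :=
    fun x y hx hy => huniq _ _ _ (hbr _ (hψ x hx) _ (hψ y hy)) (hψ _ (skew_brk hx hy))
  have hψ0 : ψ 0 = 0 := huniq _ _ _ (hψ 0 hs0) R.zero_mem
  have hψc : ∀ (c : ℂ) x, Skew ω x → ψ (c • x) = c • ψ x := fun c x hx =>
    huniq _ _ _ (hψ _ (skew_smul c hx)) (R.smul_mem c (hψ x hx))
  have hψn : ∀ x, Skew ω x → ψ (-x) = -ψ x := fun x hx =>
    huniq _ _ _ (hψ _ ((SP ω).neg_mem hx)) (R.neg_mem (hψ x hx))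
  have hψd : ∀ x y, Skew ω x → Skew ω y → ψ (x - y) = ψ x - ψ y := fun x y hx hy =>
    huniq _ _ _ (hψ _ ((SP ω).sub_mem hx hy)) (R.sub_mem (hψ x hx) (hψ y hy))
  have hne : ∀ x, Skew ω x → x ≠ 0 → ψ x ≠ 0 := by
    intro x hx h0 h1
    apply h0
    apply hz
    rw [← h1]
    exact hψ x hx
  -- the generators
  have t := tab hb
  have sS : ∀ u v, Skew ω (S ω u v) := S_skew hω
  have sh₁ : Skew ω (-S ω (b 0) (b 1)) := (SP ω).neg_mem (sS _ _)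
  have se₁ : Skew ω ((1 / 2 : ℂ) • S ω (b 0) (b 0)) := skew_smul _ (sS _ _)
  have sf₁ : Skew ω (-((1 / 2 : ℂ) • S ω (b 1) (b 1))) := (SP ω).neg_mem (skew_smul _ (sS _ _))
  have sh₂ : Skew ω (-S ω (b 2) (b 3)) := (SP ω).neg_mem (sS _ _)
  have se₂ : Skew ω ((1 / 2 : ℂ) • S ω (b 2) (b 2)) := skew_smul _ (sS _ _)
  have sf₂ : Skew ω (-((1 / 2 : ℂ) • S ω (b 3) (b 3))) := (SP ω).neg_mem (skew_smul _ (sS _ _))
  have sx : Skew ω (S ω (b 0) (b 3)) := sS _ _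
  set h₁ : Module.End ℂ W := -S ω (b 0) (b 1) with hh₁
  set e₁ : Module.End ℂ W := (1 / 2 : ℂ) • S ω (b 0) (b 0) with he₁
  set f₁ : Module.End ℂ W := -((1 / 2 : ℂ) • S ω (b 1) (b 1)) with hf₁
  set h₂ : Module.End ℂ W := -S ω (b 2) (b 3) with hh₂
  set e₂ : Module.End ℂ W := (1 / 2 : ℂ) • S ω (b 2) (b 2) with he₂
  set f₂ : Module.End ℂ W := -((1 / 2 : ℂ) • S ω (b 3) (b 3)) with hf₂
  set x : Module.End ℂ W := S ω (b 0) (b 3) with hx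
  have r := t.rel (y := e₂ * x - x * e₂) rfl
  have sy : Skew ω (e₂ * x - x * e₂) := skew_brk se₂ sx
  have ne₁ : e₁ ≠ 0 := by
    intro h0
    have := t.e₁1
    rw [h0, LinearMap.zero_apply] at this
    exact b.ne_zero 0 this.symm
  have ne₂ : e₂ ≠ 0 := by
    intro h0
    have := t.e₂3
    rw [h0, LinearMap.zero_apply] at this
    exact b.ne_zero 2 this.symm
  have ny : e₂ * x - x * e₂ ≠ 0 := by
    intro h0
    have h1 : (e₂ * x - x * e₂) (b 1) = b 2 := by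
      simp [t.e₂1, t.x1, t.e₂3]
    rw [h0, LinearMap.zero_apply] at h1
    exact b.ne_zero 2 h1.symm
  set y : Module.End ℂ W := e₂ * x - x * e₂ with hy
  have r' : Rel (ψ h₁) (ψ e₁) (ψ f₁) (ψ h₂) (ψ e₂) (ψ f₂) (ψ x) (ψ y) := by
    refine ⟨⟨?_, ?_, ?_⟩, ⟨?_, ?_, ?_⟩, ?_, ?_, ?_, ?_, ?_, ?_, ?_, ?_, ?_, ?_, ?_, ?_⟩
    · rw [hψb _ _ sh₁ se₁, r.t₁.he, hψc _ _ se₁]
    · rw [hψb _ _ sh₁ sf₁, r.t₁.hf, hψn _ (skew_smul _ sf₁), hψc _ _ sf₁]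
    · rw [hψb _ _ se₁ sf₁, r.t₁.ef]
    · rw [hψb _ _ sh₂ se₂, r.t₂.he, hψc _ _ se₂]
    · rw [hψb _ _ sh₂ sf₂, r.t₂.hf, hψn _ (skew_smul _ sf₂), hψc _ _ sf₂]
    · rw [hψb _ _ se₂ sf₂, r.t₂.ef]
    · rw [hψb _ _ sh₁ sh₂, r.hh, hψ0]
    · rw [hψb _ _ sh₁ se₂, r.he, hψ0]
    · rw [hψb _ _ sh₁ sf₂, r.hf, hψ0]
    · rw [hψb _ _ se₁ sh₂, r.eh, hψ0]
    · rw [hψb _ _ se₁ se₂, r.ee, hψ0]
    · rw [hψb _ _ se₁ sf₂, r.ef, hψ0]
    · rw [hψb _ _ sh₁ sy, r.hy₁]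
    · rw [hψb _ _ sh₂ sy, r.hy₂]
    · rw [hψb _ _ se₂ sx, r.yx]
    · rw [hψb _ _ sh₁ sx, r.hx₁]
    · rw [hψb _ _ sh₂ sx, r.hx₂, hψn _ sx]
    · rw [hψb _ _ sf₁ sy, hψb _ _ sx (skew_brk sf₁ sy), r.z, hψd _ _ sh₁ sh₂]
  obtain ⟨c, d, hcc, t'⟩ := r'.tab hT hω' hd' (hψs _ sh₁) (hψs _ se₁) (hψs _ sf₁) (hψs _ sh₂) (hψs _ se₂)
    (hψs _ sf₂) (hψs _ sx) (hne _ se₁ ne₁) (hne _ se₂ ne₂) (hne _ sy ny)
  -- the intertwining operator
  set T : W →ₗ[ℂ] W' := b.constr ℂ (![d 0, d 1, c • d 2, c • d 3] : Fin 4 → W') with hTdef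
  have T0 : T (b 0) = d 0 := by rw [hTdef, Basis.constr_basis]; rfl
  have T1 : T (b 1) = d 1 := by rw [hTdef, Basis.constr_basis]; rfl
  have T2 : T (b 2) = c • d 2 := by rw [hTdef, Basis.constr_basis]; rfl
  have T3 : T (b 3) = c • d 3 := by rw [hTdef, Basis.constr_basis]; rfl
  refine ⟨T, ?_, ?_⟩
  · intro h0
    rw [h0, LinearMap.zero_apply] at T0
    exact d.ne_zero 0 T0.symm
  let A : Submodule ℂ (Module.End ℂ W) :=
    { carrier := {x | ∃ y, (x, y) ∈ R ∧ T ∘ₗ x = y ∘ₗ T}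
      zero_mem' := ⟨0, R.zero_mem, by simp⟩
      add_mem' := by
        rintro u v ⟨u', hu, hu'⟩ ⟨v', hv, hv'⟩
        exact ⟨u' + v', R.add_mem hu hv, by rw [LinearMap.comp_add, LinearMap.add_comp, hu', hv']⟩
      smul_mem' := by
        rintro a v ⟨v', hv, hv'⟩
        exact ⟨a • v', R.smul_mem a hv, by rw [LinearMap.comp_smul, LinearMap.smul_comp, hv']⟩ }
  have hAb : ∀ u v, u ∈ A → v ∈ A → u * v - v * u ∈ A := by
    rintro u v ⟨u', hu, hu'⟩ ⟨v', hv, hv'⟩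
    refine ⟨u' * v' - v' * u', hbr _ hu _ hv, ?_⟩
    ext w
    have k1 : ∀ w, T (u w) = u' (T w) := fun w => LinearMap.congr_fun hu' w
    have k2 : ∀ w, T (v w) = v' (T w) := fun w => LinearMap.congr_fun hv' w
    simp only [LinearMap.comp_apply, LinearMap.sub_apply, Module.End.mul_apply, map_sub, k1, k2]
  have Ae₁ : e₁ ∈ A := by
    refine ⟨ψ e₁, hψ _ se₁, ?_⟩
    refine b.ext fun i => ?_
    fin_cases i <;> simp [T0, T1, T2, T3, t.e₁0, t.e₁1, t.e₁2, t.e₁3, t'.e₁0, t'.e₁1, t'.e₁2, t'.e₁3]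
  have Af₁ : f₁ ∈ A := by
    refine ⟨ψ f₁, hψ _ sf₁, ?_⟩
    refine b.ext fun i => ?_
    fin_cases i <;> simp [T0, T1, T2, T3, t.f₁0, t.f₁1, t.f₁2, t.f₁3, t'.f₁0, t'.f₁1, t'.f₁2, t'.f₁3]
  have Ae₂ : e₂ ∈ A := by
    refine ⟨ψ e₂, hψ _ se₂, ?_⟩
    refine b.ext fun i => ?_
    fin_cases i <;> simp [T0, T1, T2, T3, t.e₂0, t.e₂1, t.e₂2, t.e₂3, t'.e₂0, t'.e₂1, t'.e₂2, t'.e₂3]
  have Af₂ : f₂ ∈ A := by
    refine ⟨ψ f₂, hψ _ sf₂, ?_⟩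
    refine b.ext fun i => ?_
    fin_cases i <;> simp [T0, T1, T2, T3, t.f₂0, t.f₂1, t.f₂2, t.f₂3, t'.f₂0, t'.f₂1, t'.f₂2, t'.f₂3]
  have Ax : x ∈ A := by
    refine ⟨ψ x, hψ _ sx, ?_⟩
    refine b.ext fun i => ?_
    fin_cases i
    · simp [T0, t.x0, t'.x0]
    · simp [T1, T3, t.x1, t'.x1]
    · simp [T0, T2, t.x2, t'.x2, smul_smul, hcc]
    · simp [T3, t.x3, t'.x3]
  have hS0 : ∀ u, S ω u 0 = 0 := fun u => by ext w; simp [S_apply]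
  have hS0' : ∀ u, S ω 0 u = 0 := fun u => by ext w; simp [S_apply]
  have s00 : S ω (b 0) (b 0) ∈ A := by
    have := A.smul_mem (2 : ℂ) Ae₁
    rwa [he₁, smul_smul, show (2 : ℂ) * (1 / 2) = 1 by norm_num, one_smul] at this
  have s11 : S ω (b 1) (b 1) ∈ A := by
    have := A.smul_mem (-2 : ℂ) Af₁
    rwa [hf₁, smul_neg, smul_smul, show (-2 : ℂ) * (1 / 2) = -1 by norm_num, neg_one_smul, neg_neg] at this
  have s22 : S ω (b 2) (b 2) ∈ A := by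
    have := A.smul_mem (2 : ℂ) Ae₂
    rwa [he₂, smul_smul, show (2 : ℂ) * (1 / 2) = 1 by norm_num, one_smul] at this
  have s33 : S ω (b 3) (b 3) ∈ A := by
    have := A.smul_mem (-2 : ℂ) Af₂
    rwa [hf₂, smul_neg, smul_smul, show (-2 : ℂ) * (1 / 2) = -1 by norm_num, neg_one_smul, neg_neg] at this
  have s01 : S ω (b 0) (b 1) ∈ A := by
    have h1 := hAb _ _ Ae₁ Af₁
    rw [r.t₁.ef, hh₁] at h1
    simpa using A.neg_mem h1
  have s23 : S ω (b 2) (b 3) ∈ A := by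
    have h1 := hAb _ _ Ae₂ Af₂
    rw [r.t₂.ef, hh₂] at h1
    simpa using A.neg_mem h1
  have s03 : S ω (b 0) (b 3) ∈ A := Ax
  have s13 : S ω (b 1) (b 3) ∈ A := by
    have h1 := hAb _ _ Af₁ s03
    rwa [S_brk sf₁, t.f₁0, t.f₁3, hS0, add_zero] at h1
  have s02 : S ω (b 0) (b 2) ∈ A := by
    have h1 := hAb _ _ Ae₂ s03
    rwa [S_brk se₂, t.e₂0, t.e₂3, hS0', zero_add] at h1
  have s12 : S ω (b 1) (b 2) ∈ A := by
    have h1 := hAb _ _ Af₁ s02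
    rwa [S_brk sf₁, t.f₁0, t.f₁2, hS0, add_zero] at h1
  have hall : ∀ i j, S ω (b i) (b j) ∈ A := by
    intro i j
    fin_cases i <;> fin_cases j
    · exact s00
    · exact s01
    · exact s02
    · exact s03
    · rw [S_comm]; exact s01
    · exact s11
    · exact s12
    · exact s13
    · rw [S_comm]; exact s02
    · rw [S_comm]; exact s12
    · exact s22
    · exact s23
    · rw [S_comm]; exact s03
    · rw [S_comm]; exact s13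
    · rw [S_comm]; exact s23
    · exact s33
  intro p hp
  obtain ⟨q, hq, hq'⟩ := span_S hω hb hall (hsk p hp).1
  have : q = p.2 := huniq p.1 q p.2 hq hp
  rw [← this]
  exact hq'

end Pool.Agent.P8H88.SW
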