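import Pool.Agent.P8H30.SW.Stm

set_option autoImplicit false

/-!
# SW/UNI: the symplectic representation of dimension four of `sp(4)` is unique (from TYP)

Package of project SW (helper30).
-/

open Module

namespace Pool.Agent.P8H88.SW

open Pool.Agent.P8H30.SW

section

variable {W : Type} [AddCommGroup W] [Module ℂ W]

theorem anti {ω : W →ₗ[ℂ] W →ₗ[ℂ] ℂ} (hω : Sym ω) (u v : W) : ω u v = - ω v u := by
  have h := hω.alt (u + v)
  simp only [map_add, LinearMap.add_apply, hω.alt] at h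
  linear_combination h

/-- all values of the form on a symplectic basis -/
structure D16 (ω : W →ₗ[ℂ] W →ₗ[ℂ] ℂ) (v : Fin 4 → W) : Prop where
  w00 : ω (v 0) (v 0) = 0
  w01 : ω (v 0) (v 1) = 1
  w02 : ω (v 0) (v 2) = 0
  w03 : ω (v 0) (v 3) = 0
  w10 : ω (v 1) (v 0) = -1
  w11 : ω (v 1) (v 1) = 0
  w12 : ω (v 1) (v 2) = 0
  w13 : ω (v 1) (v 3) = 0
  w20 : ω (v 2) (v 0) = 0
  w21 : ω (v 2) (v 1) = 0
  w22 : ω (v 2) (v 2) = 0
  w23 : ω (v 2) (v 3) = 1
  w30 : ω (v 3) (v 0) = 0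
  w31 : ω (v 3) (v 1) = 0
  w32 : ω (v 3) (v 2) = -1
  w33 : ω (v 3) (v 3) = 0

theorem d16 {ω : W →ₗ[ℂ] W →ₗ[ℂ] ℂ} (hω : Sym ω) {v : Fin 4 → W} (h01 : ω (v 0) (v 1) = 1)
    (h23 : ω (v 2) (v 3) = 1) (h02 : ω (v 0) (v 2) = 0) (h03 : ω (v 0) (v 3) = 0)
    (h12 : ω (v 1) (v 2) = 0) (h13 : ω (v 1) (v 3) = 0) : D16 ω v := by
  constructor <;> first | exact hω.alt _ | assumption | (rw [anti hω]; simp only [h01, h23, h02, h03, h12, h13, neg_zero])

theorem D16.of_dar {ω : W →ₗ[ℂ] W →ₗ[ℂ] ℂ} (hω : Sym ω) {b : Basis (Fin 4) ℂ W} (hb : Dar ω b) :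
    D16 ω b := d16 hω hb.w01 hb.w23 hb.w02 hb.w03 hb.w12 hb.w13

/-- the operators `S(u, v)` -/
noncomputable def S (ω : W →ₗ[ℂ] W →ₗ[ℂ] ℂ) (u v : W) : Module.End ℂ W :=
  (ω u).smulRight v + (ω v).smulRight u

theorem S_apply (ω : W →ₗ[ℂ] W →ₗ[ℂ] ℂ) (u v w : W) : S ω u v w = ω u w • v + ω v w • u := by
  simp [S]

theorem S_comm (ω : W →ₗ[ℂ] W →ₗ[ℂ] ℂ) (u v : W) : S ω u v = S ω v u := by
  ext w; simp only [S_apply]; abel

theorem S_skew {ω : W →ₗ[ℂ] W →ₗ[ℂ] ℂ} (hω : Sym ω) (u v : W) : Skew ω (S ω u v) := by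
  intro a c
  simp only [S_apply, map_add, map_smul, LinearMap.add_apply, LinearMap.smul_apply, smul_eq_mul]
  rw [anti hω a v, anti hω a u]
  ring

theorem S_brk {ω : W →ₗ[ℂ] W →ₗ[ℂ] ℂ} {x : Module.End ℂ W} (hx : Skew ω x) (u v : W) :
    x * S ω u v - S ω u v * x = S ω (x u) v + S ω u (x v) := by
  ext w
  have h1 := hx u w
  have h2 := hx v w
  have e1 : ω u (x w) = - ω (x u) w := by linear_combination h1
  have e2 : ω v (x w) = - ω (x v) w := by linear_combination h2
  simp only [LinearMap.sub_apply, Module.End.mul_apply, S_apply, LinearMap.add_apply, map_add, map_smul,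
    e1, e2]
  module

theorem skew_brk {ω : W →ₗ[ℂ] W →ₗ[ℂ] ℂ} {x y : Module.End ℂ W} (hx : Skew ω x) (hy : Skew ω y) :
    Skew ω (x * y - y * x) := by
  intro u v
  simp only [LinearMap.sub_apply, Module.End.mul_apply, map_sub]
  have h1 := hx (y u) v
  have h2 := hy (x u) v
  have h3 := hx u (y v)
  have h4 := hy u (x v)
  linear_combination h1 - h2 + h3 - h4

theorem skew_smul {ω : W →ₗ[ℂ] W →ₗ[ℂ] ℂ} {x : Module.End ℂ W} (c : ℂ) (hx : Skew ω x) :
    Skew ω (c • x) := (SP ω).smul_mem c hx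

/-- coordinates of the values of a diagonal operator -/
theorem repr_eig {b : Basis (Fin 4) ℂ W} {h : Module.End ℂ W} {μ : Fin 4 → ℂ}
    (hb : ∀ i, h (b i) = μ i • b i) (v : W) (i : Fin 4) : b.repr (h v) i = μ i * b.repr v i := by
  have key : (b.coord i) ∘ₗ h = μ i • b.coord i := by
    refine b.ext fun j => ?_
    simp only [LinearMap.comp_apply, hb, map_smul, LinearMap.smul_apply, Basis.coord_apply,
      Basis.repr_self, smul_eq_mul, Finsupp.single_apply]
    split_ifs with hij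
    · subst hij; ring
    · ring
  have := LinearMap.congr_fun key v
  simpa using this

theorem eig0 {b : Basis (Fin 4) ℂ W} {h : Module.End ℂ W} {μ : Fin 4 → ℂ}
    (hb : ∀ i, h (b i) = μ i • b i) {v : W} {c : ℂ} (hv : h v = c • v) {i : Fin 4} (hc : μ i ≠ c) :
    b.repr v i = 0 := by
  have h1 := repr_eig hb v i
  rw [hv, map_smul, Finsupp.smul_apply, smul_eq_mul] at h1
  have h2 : (μ i - c) * b.repr v i = 0 := by linear_combination -h1
  rcases mul_eq_zero.1 h2 with h3 | h3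
  · exact absurd (sub_eq_zero.1 h3) hc
  · exact h3

theorem ykill {b : Basis (Fin 4) ℂ W} {h y : Module.End ℂ W} {μ : Fin 4 → ℂ}
    (hb : ∀ i, h (b i) = μ i • b i) (hμ : ∀ i j, μ i ≠ μ j + 1) (hy : h * y - y * h = y) : y = 0 := by
  refine b.ext fun k => ?_
  have h1 : h (y (b k)) = (μ k + 1) • y (b k) := by
    have := LinearMap.congr_fun hy (b k)
    simp only [LinearMap.sub_apply, Module.End.mul_apply, hb, map_smul] at this
    rw [add_smul, one_smul]
    rw [sub_eq_iff_eq_add] at this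
    rw [this]; abel
  apply b.ext_elem
  intro i
  rw [eig0 hb h1 (hμ i k)]
  simp

theorem typ1 (hT : S_TYP) [FiniteDimensional ℂ W] {ω : W →ₗ[ℂ] W →ₗ[ℂ] ℂ} (hω : Sym ω)
    (hd : finrank ℂ W = 4) {h e f y : Module.End ℂ W} (t : Trip h e f) (sh : Skew ω h)
    (se : Skew ω e) (sf : Skew ω f) (he : e ≠ 0) (hy : y ≠ 0) (hhy : h * y - y * h = y) :
    ∃ b : Basis (Fin 4) ℂ W, Dar ω b ∧ Ty1 h e f b := by
  rcases hT W ω h e f hω hd t sh se sf he with ⟨b, hb⟩ | hb | ⟨b, -, hb⟩
  · exfalso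
    apply hy
    refine ykill (μ := fun k => ((3 : ℕ) : ℂ) - 2 * ((k : ℕ) : ℂ)) hb.hb ?_ hhy
    intro i j
    fin_cases i <;> fin_cases j <;> norm_num
  · exact hb
  · exfalso
    apply hy
    refine ykill (b := b) (μ := ![1, -1, 1, -1]) ?_ ?_ hhy
    · intro i
      fin_cases i
      · simpa using hb.h0
      · simpa using hb.h1
      · simpa using hb.h2
      · simpa using hb.h3
    · intro i j
      fin_cases i <;> fin_cases j <;> norm_num

/-- four vectors with the symplectic relations are a basis -/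
theorem bas [FiniteDimensional ℂ W] (hd : finrank ℂ W = 4) {ω : W →ₗ[ℂ] W →ₗ[ℂ] ℂ} {v : Fin 4 → W}
    (hv : D16 ω v) : ∃ b : Basis (Fin 4) ℂ W, ∀ i, b i = v i := by
  have hli : LinearIndependent ℂ v := by
    rw [Fintype.linearIndependent_iff]
    intro g hg
    rw [Fin.sum_univ_four] at hg
    have key : ∀ u, ω u (g 0 • v 0 + g 1 • v 1 + g 2 • v 2 + g 3 • v 3) = 0 := fun u => by rw [hg]; simp
    have k0 := key (v 1)
    have k1 := key (v 0)
    have k2 := key (v 3)
    have k3 := key (v 2)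
    simp only [map_add, map_smul, smul_eq_mul, hv.w00, hv.w01, hv.w02, hv.w03, hv.w10, hv.w11, hv.w12, hv.w13,
      hv.w20, hv.w21, hv.w22, hv.w23, hv.w30, hv.w31, hv.w32, hv.w33] at k0 k1 k2 k3
    intro i
    fin_cases i
    · simpa using k0
    · simpa using k1
    · simpa using k2
    · simpa using k3
  refine ⟨basisOfLinearIndependentOfCardEqFinrank hli (by simp [hd]), fun i => ?_⟩
  simp

/-- symplectic bases exist -/
theorem exists_dar [FiniteDimensional ℂ W] {ω : W →ₗ[ℂ] W →ₗ[ℂ] ℂ} (hω : Sym ω)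
    (hd : finrank ℂ W = 4) : ∃ b : Basis (Fin 4) ℂ W, D16 ω b := by
  classical
  have hpair : ∀ p : W, p ≠ 0 → ∃ q, ω p q = 1 := by
    intro p hp
    by_contra hcon
    push Not at hcon
    apply hp
    apply hω.nd
    intro v
    by_contra hv
    apply hcon ((ω p v)⁻¹ • v)
    simp [hv]
  have hnt : Nontrivial W := by
    apply Module.nontrivial_of_finrank_pos (R := ℂ)
    omega
  obtain ⟨p, hp⟩ := exists_ne (0 : W)
  obtain ⟨q, hpq⟩ := hpair p hp
  have hqp : ω q p = -1 := by rw [anti hω, hpq]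
  have hpp := hω.alt p
  have hqq := hω.alt q
  -- a vector outside of the plane
  have hex : ∃ w, w ∉ Submodule.span ℂ ({p, q} : Set W) := by
    by_contra hcon
    push Not at hcon
    have h1 : Submodule.span ℂ ({p, q} : Set W) = ⊤ := by
      rw [eq_top_iff]; intro w _; exact hcon w
    have h2 : finrank ℂ (Submodule.span ℂ ({p, q} : Set W)) ≤ 2 := by
      have h4 : finrank ℂ (Submodule.span ℂ ((({p, q} : Finset W)) : Set W)) ≤ ({p, q} : Finset W).card :=
        finrank_span_finset_le_card (R := ℂ) ({p, q} : Finset W)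
      have h3 : ({p, q} : Finset W).card ≤ 2 := Finset.card_le_two
      rw [Finset.coe_insert, Finset.coe_singleton] at h4
      exact h4.trans h3
    rw [h1, finrank_top, hd] at h2
    omega
  obtain ⟨w, hw⟩ := hex
  -- projection
  have hproj : ∀ v, ω p (v - ω p v • q + ω q v • p) = 0 ∧ ω q (v - ω p v • q + ω q v • p) = 0 := by
    intro v
    constructor
    · simp [hpq, hpp]
    · simp [hqp, hqq]
  set p' := w - ω p w • q + ω q w • p with hp'
  have hp'0 : p' ≠ 0 := by
    intro h0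
    apply hw
    have : w = ω p w • q - ω q w • p := by
      have : w - ω p w • q + ω q w • p = 0 := h0
      calc w = (w - ω p w • q + ω q w • p) + (ω p w • q - ω q w • p) := by abel
        _ = ω p w • q - ω q w • p := by rw [this, zero_add]
    rw [this]
    apply Submodule.sub_mem
    · exact Submodule.smul_mem _ _ (Submodule.subset_span (by simp))
    · exact Submodule.smul_mem _ _ (Submodule.subset_span (by simp))
  obtain ⟨v, hv⟩ := hpair p' hp'0
  have h1 : ω p p' = 0 := (hproj w).1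
  have h2 : ω q p' = 0 := (hproj w).2
  have h1' : ω p' p = 0 := by rw [anti hω, h1, neg_zero]
  have h2' : ω p' q = 0 := by rw [anti hω, h2, neg_zero]
  set q' := v - ω p v • q + ω q v • p with hq'
  have h3 : ω p q' = 0 := (hproj v).1
  have h4 : ω q q' = 0 := (hproj v).2
  have h5 : ω p' q' = 1 := by
    rw [hq']
    simp only [map_add, map_sub, map_smul, h1', h2', hv]
    simp
  have hD : D16 ω ![p, q, p', q'] := d16 hω (by simpa using hpq) (by simpa using h5) (by simpa using h1)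
    (by simpa using h3) (by simpa using h2) (by simpa using h4)
  obtain ⟨b, hb⟩ := bas hd hD
  refine ⟨b, ?_⟩
  have : (b : Fin 4 → W) = ![p, q, p', q'] := funext hb
  rw [this]
  exact hD

/-- expansion in a symplectic basis -/
theorem expand {ω : W →ₗ[ℂ] W →ₗ[ℂ] ℂ} {b : Basis (Fin 4) ℂ W} (hb : D16 ω b) (w : W) :
    w = -(ω (b 1) w) • b 0 + ω (b 0) w • b 1 - ω (b 3) w • b 2 + ω (b 2) w • b 3 := by
  have key : (LinearMap.id : W →ₗ[ℂ] W) = -(ω (b 1)).smulRight (b 0) + (ω (b 0)).smulRight (b 1)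
      - (ω (b 3)).smulRight (b 2) + (ω (b 2)).smulRight (b 3) := by
    refine b.ext fun i => ?_
    fin_cases i <;>
      simp [hb.w00, hb.w01, hb.w02, hb.w03, hb.w10, hb.w11, hb.w12, hb.w13,
        hb.w20, hb.w21, hb.w22, hb.w23, hb.w30, hb.w31, hb.w32, hb.w33]
  have := LinearMap.congr_fun key w
  simpa using this

/-- the skew operators are spanned by the `S(b i, b j)` -/
theorem span_S {ω : W →ₗ[ℂ] W →ₗ[ℂ] ℂ} (hω : Sym ω) {b : Basis (Fin 4) ℂ W} (hb : D16 ω b)
    {A : Submodule ℂ (Module.End ℂ W)} (hA : ∀ i j, S ω (b i) (b j) ∈ A) {x : Module.End ℂ W}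
    (hx : Skew ω x) : x ∈ A := by
  have h1 : ∀ i v, S ω (b i) v ∈ A := by
    intro i v
    have e : S ω (b i) v = -(ω (b 1) v) • S ω (b i) (b 0) + ω (b 0) v • S ω (b i) (b 1)
        - ω (b 3) v • S ω (b i) (b 2) + ω (b 2) v • S ω (b i) (b 3) := by
      ext w
      simp only [LinearMap.add_apply, LinearMap.sub_apply, LinearMap.smul_apply, S_apply, LinearMap.neg_apply]
      conv_lhs => rw [expand hb v]
      simp only [map_add, map_sub, map_neg, map_smul, LinearMap.add_apply, LinearMap.sub_apply,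
        LinearMap.neg_apply, LinearMap.smul_apply, smul_eq_mul]
      module
    rw [e]
    exact A.add_mem (A.sub_mem (A.add_mem (A.smul_mem _ (hA _ _)) (A.smul_mem _ (hA _ _)))
      (A.smul_mem _ (hA _ _))) (A.smul_mem _ (hA _ _))
  have e : x = (1 / 2 : ℂ) • (-S ω (b 1) (x (b 0)) + S ω (b 0) (x (b 1)) - S ω (b 3) (x (b 2))
      + S ω (b 2) (x (b 3))) := by
    ext w
    have hxw : x w = -(ω (b 1) w) • x (b 0) + ω (b 0) w • x (b 1) - ω (b 3) w • x (b 2)
        + ω (b 2) w • x (b 3) := by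
      conv_lhs => rw [expand hb w]
      simp
    have hxw2 := expand hb (x w)
    have k : ∀ i, ω (x (b i)) w = - ω (b i) (x w) := fun i => by
      have := hx (b i) w
      linear_combination this
    simp only [LinearMap.add_apply, LinearMap.sub_apply, LinearMap.smul_apply, S_apply, LinearMap.neg_apply, k]
    calc x w = (1 / 2 : ℂ) • (x w + x w) := by module
      _ = (1 / 2 : ℂ) • ((-(ω (b 1) w) • x (b 0) + ω (b 0) w • x (b 1) - ω (b 3) w • x (b 2)
          + ω (b 2) w • x (b 3)) + (-(ω (b 1) (x w)) • b 0 + ω (b 0) (x w) • b 1 - ω (b 3) (x w) • b 2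
          + ω (b 2) (x w) • b 3)) := by rw [← hxw, ← hxw2]
      _ = _ := by module
  rw [e]
  exact A.smul_mem _ (A.add_mem (A.sub_mem (A.add_mem (A.neg_mem (h1 _ _)) (h1 _ _)) (h1 _ _)) (h1 _ _))

end

end Pool.Agent.P8H88.SW
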