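import Pool.Agent.P8H88.SW.Uni

set_option autoImplicit false

/-!
# SW/UNI: the symplectic representation of dimension four of `sp(4)` is unique (from TYP)

Package of project SW (helper30), second part.
-/

open Module

namespace Pool.Agent.P8H88.SW

open Pool.Agent.P8H30.SW

section

variable {W : Type} [AddCommGroup W] [Module ℂ W]

/-- the relations used for the generators of `sp(4)` -/
structure Rel (h₁ e₁ f₁ h₂ e₂ f₂ x y : Module.End ℂ W) : Prop where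
  t₁ : Trip h₁ e₁ f₁
  t₂ : Trip h₂ e₂ f₂
  hh : h₁ * h₂ - h₂ * h₁ = 0
  he : h₁ * e₂ - e₂ * h₁ = 0
  hf : h₁ * f₂ - f₂ * h₁ = 0
  eh : e₁ * h₂ - h₂ * e₁ = 0
  ee : e₁ * e₂ - e₂ * e₁ = 0
  ef : e₁ * f₂ - f₂ * e₁ = 0
  hy₁ : h₁ * y - y * h₁ = y
  hy₂ : h₂ * y - y * h₂ = y
  yx : e₂ * x - x * e₂ = y
  hx₁ : h₁ * x - x * h₁ = x
  hx₂ : h₂ * x - x * h₂ = -x
  z : x * (f₁ * y - y * f₁) - (f₁ * y - y * f₁) * x = h₁ - h₂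

/-- the values of the first triple, of the second triple, and of `x` on a basis -/
structure Tab (h₁ e₁ f₁ h₂ e₂ f₂ x : Module.End ℂ W) (c : ℂ) (b : Basis (Fin 4) ℂ W) : Prop where
  h₁0 : h₁ (b 0) = b 0
  h₁1 : h₁ (b 1) = -b 1
  h₁2 : h₁ (b 2) = 0
  h₁3 : h₁ (b 3) = 0
  e₁0 : e₁ (b 0) = 0
  e₁1 : e₁ (b 1) = b 0
  e₁2 : e₁ (b 2) = 0
  e₁3 : e₁ (b 3) = 0
  f₁0 : f₁ (b 0) = b 1
  f₁1 : f₁ (b 1) = 0
  f₁2 : f₁ (b 2) = 0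
  f₁3 : f₁ (b 3) = 0
  h₂0 : h₂ (b 0) = 0
  h₂1 : h₂ (b 1) = 0
  h₂2 : h₂ (b 2) = b 2
  h₂3 : h₂ (b 3) = -b 3
  e₂0 : e₂ (b 0) = 0
  e₂1 : e₂ (b 1) = 0
  e₂2 : e₂ (b 2) = 0
  e₂3 : e₂ (b 3) = b 2
  f₂0 : f₂ (b 0) = 0
  f₂1 : f₂ (b 1) = 0
  f₂2 : f₂ (b 2) = b 3
  f₂3 : f₂ (b 3) = 0
  x0 : x (b 0) = 0
  x1 : x (b 1) = c • b 3
  x2 : x (b 2) = -(c • b 0)
  x3 : x (b 3) = 0

/-- the table of the generators -/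
theorem tab {ω : W →ₗ[ℂ] W →ₗ[ℂ] ℂ} {b : Basis (Fin 4) ℂ W} (d : D16 ω b) :
    Tab (-S ω (b 0) (b 1)) ((1 / 2 : ℂ) • S ω (b 0) (b 0)) (-((1 / 2 : ℂ) • S ω (b 1) (b 1)))
      (-S ω (b 2) (b 3)) ((1 / 2 : ℂ) • S ω (b 2) (b 2)) (-((1 / 2 : ℂ) • S ω (b 3) (b 3)))
      (S ω (b 0) (b 3)) 1 b := by
  constructor <;>
    simp only [LinearMap.neg_apply, LinearMap.smul_apply, S_apply, d.w00, d.w01, d.w02, d.w03, d.w10, d.w11,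
      d.w12, d.w13, d.w20, d.w21, d.w22, d.w23, d.w30, d.w31, d.w32, d.w33] <;>
    module

/-- the relations follow from the table -/
theorem Tab.rel {h₁ e₁ f₁ h₂ e₂ f₂ x y : Module.End ℂ W} {b : Basis (Fin 4) ℂ W}
    (t : Tab h₁ e₁ f₁ h₂ e₂ f₂ x 1 b) (hy : y = e₂ * x - x * e₂) : Rel h₁ e₁ f₁ h₂ e₂ f₂ x y := by
  subst hy
  constructor
  · constructor <;> (refine b.ext fun i => ?_; fin_cases i <;>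
      simp [t.h₁0, t.h₁1, t.h₁2, t.h₁3, t.e₁0, t.e₁1, t.e₁2, t.e₁3, t.f₁0, t.f₁1, t.f₁2, t.f₁3] <;> module)
  · constructor <;> (refine b.ext fun i => ?_; fin_cases i <;>
      simp [t.h₂0, t.h₂1, t.h₂2, t.h₂3, t.e₂0, t.e₂1, t.e₂2, t.e₂3, t.f₂0, t.f₂1, t.f₂2, t.f₂3] <;> module)
  all_goals
    refine b.ext fun i => ?_
    fin_cases i <;>
      simp [t.h₁0, t.h₁1, t.h₁2, t.h₁3, t.e₁0, t.e₁1, t.e₁2, t.e₁3, t.f₁0, t.f₁1, t.f₁2, t.f₁3,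
        t.h₂0, t.h₂1, t.h₂2, t.h₂3, t.e₂0, t.e₂1, t.e₂2, t.e₂3, t.f₂0, t.f₂1, t.f₂2, t.f₂3,
        t.x0, t.x1, t.x2, t.x3]

end

end Pool.Agent.P8H88.SW
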