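import Pool.Agent.P8H88.SW.Uni2

set_option autoImplicit false

/-!
# SW/UNI: the symplectic representation of dimension four of `sp(4)` is unique (from TYP)

Package of project SW (helper30), third part.
-/

open Module

namespace Pool.Agent.P8H88.SW

open Pool.Agent.P8H30.SW

section

variable {W : Type} [AddCommGroup W] [Module ℂ W]

theorem eq4 (b : Basis (Fin 4) ℂ W) (w : W) :
    w = b.repr w 0 • b 0 + b.repr w 1 • b 1 + b.repr w 2 • b 2 + b.repr w 3 • b 3 := by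
  conv_lhs => rw [← b.sum_repr w]
  rw [Fin.sum_univ_four]

theorem comm_app {h z : Module.End ℂ W} (hz : h * z - z * h = 0) (w : W) : h (z w) = z (h w) := by
  have := LinearMap.congr_fun hz w
  simp only [LinearMap.sub_apply, Module.End.mul_apply, LinearMap.zero_apply] at this
  exact sub_eq_zero.1 this

/-- skew operators commuting with a triple of rank one -/
theorem zcomm {ω : W →ₗ[ℂ] W →ₗ[ℂ] ℂ} {b : Basis (Fin 4) ℂ W} (d : D16 ω b)
    {h e f z : Module.End ℂ W} (t : Ty1 h e f b) (hz : h * z - z * h = 0) (ez : e * z - z * e = 0)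
    (sz : Skew ω z) :
    z (b 0) = 0 ∧ z (b 1) = 0 ∧ ∀ w, b.repr (z w) 0 = 0 ∧ b.repr (z w) 1 = 0 := by
  have hb : ∀ i, h (b i) = (![1, -1, 0, 0] : Fin 4 → ℂ) i • b i := by
    intro i
    fin_cases i
    · simpa using t.h0
    · simpa using t.h1
    · simpa using t.h2
    · simpa using t.h3
  have k0 : h (z (b 0)) = (1 : ℂ) • z (b 0) := by rw [comm_app hz, t.h0, one_smul]
  have k1 : h (z (b 1)) = (-1 : ℂ) • z (b 1) := by rw [comm_app hz, t.h1, map_neg]; module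
  have k2 : h (z (b 2)) = (0 : ℂ) • z (b 2) := by rw [comm_app hz, t.h2, map_zero, zero_smul]
  have k3 : h (z (b 3)) = (0 : ℂ) • z (b 3) := by rw [comm_app hz, t.h3, map_zero, zero_smul]
  have z0 : z (b 0) = b.repr (z (b 0)) 0 • b 0 := by
    conv_lhs => rw [eq4 b (z (b 0))]
    rw [eig0 hb k0 (i := 1) (by simp <;> norm_num), eig0 hb k0 (i := 2) (by simp <;> norm_num), eig0 hb k0 (i := 3) (by simp <;> norm_num)]
    simp
  have z1 : z (b 1) = b.repr (z (b 1)) 1 • b 1 := by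
    conv_lhs => rw [eq4 b (z (b 1))]
    rw [eig0 hb k1 (i := 0) (by simp <;> norm_num), eig0 hb k1 (i := 2) (by simp <;> norm_num), eig0 hb k1 (i := 3) (by simp <;> norm_num)]
    simp
  set a := b.repr (z (b 0)) 0 with ha
  set c := b.repr (z (b 1)) 1 with hc
  have hac : c = a := by
    have h1 := comm_app ez (b 1)
    rw [t.e1, z1, z0, map_smul, t.e1] at h1
    have h2 := congrArg (fun w => b.repr w 0) h1
    simpa using h2
  have hskew := sz (b 0) (b 1)
  rw [z0, z1] at hskew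
  simp only [map_smul, LinearMap.smul_apply, d.w01, smul_eq_mul] at hskew
  have ha0 : a = 0 := by
    rw [hac] at hskew
    have : 2 * a = 0 := by linear_combination hskew
    simpa using this
  have hc0 : c = 0 := by rw [hac, ha0]
  have Z0 : z (b 0) = 0 := by rw [z0, ha0, zero_smul]
  have Z1 : z (b 1) = 0 := by rw [z1, hc0, zero_smul]
  refine ⟨Z0, Z1, fun w => ⟨?_, ?_⟩⟩
  · have : (b.coord 0) ∘ₗ z = 0 := by
      refine b.ext fun i => ?_
      fin_cases i
      · simp [Z0]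
      · simp [Z1]
      · simpa using eig0 hb k2 (i := 0) (by simp <;> norm_num)
      · simpa using eig0 hb k3 (i := 0) (by simp <;> norm_num)
    simpa using LinearMap.congr_fun this w
  · have : (b.coord 1) ∘ₗ z = 0 := by
      refine b.ext fun i => ?_
      fin_cases i
      · simp [Z0]
      · simp [Z1]
      · simpa using eig0 hb k2 (i := 1) (by simp <;> norm_num)
      · simpa using eig0 hb k3 (i := 1) (by simp <;> norm_num)
    simpa using LinearMap.congr_fun this w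

/-- the table follows from the relations -/
theorem Rel.tab (hT : S_TYP) [FiniteDimensional ℂ W] {ω : W →ₗ[ℂ] W →ₗ[ℂ] ℂ} (hω : Sym ω)
    (hd : finrank ℂ W = 4) {h₁ e₁ f₁ h₂ e₂ f₂ x y : Module.End ℂ W} (r : Rel h₁ e₁ f₁ h₂ e₂ f₂ x y)
    (sh₁ : Skew ω h₁) (se₁ : Skew ω e₁) (sf₁ : Skew ω f₁) (sh₂ : Skew ω h₂) (se₂ : Skew ω e₂)
    (sf₂ : Skew ω f₂) (sx : Skew ω x) (ne₁ : e₁ ≠ 0) (ne₂ : e₂ ≠ 0) (ny : y ≠ 0) :
    ∃ (c : ℂ) (b : Basis (Fin 4) ℂ W), c * c = 1 ∧ Tab h₁ e₁ f₁ h₂ e₂ f₂ x c b := by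
  obtain ⟨b, hb, tb⟩ := typ1 hT hω hd r.t₁ sh₁ se₁ sf₁ ne₁ ny r.hy₁
  obtain ⟨g, hg, tg⟩ := typ1 hT hω hd r.t₂ sh₂ se₂ sf₂ ne₂ ny r.hy₂
  have db := D16.of_dar hω hb
  have dg := D16.of_dar hω hg
  obtain ⟨zh0, zh1, zhK⟩ := zcomm db tb r.hh r.eh sh₂
  obtain ⟨ze0, ze1, -⟩ := zcomm db tb r.he r.ee se₂
  obtain ⟨zf0, zf1, -⟩ := zcomm db tb r.hf r.ef sf₂
  have g0K : b.repr (g 0) 0 = 0 ∧ b.repr (g 0) 1 = 0 := by
    have := zhK (g 0)
    rwa [tg.h0] at this
  have g1K : b.repr (g 1) 0 = 0 ∧ b.repr (g 1) 1 = 0 := by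
    have := zhK (g 1)
    rw [tg.h1] at this
    simpa using this
  have g0e : g 0 = b.repr (g 0) 2 • b 2 + b.repr (g 0) 3 • b 3 := by
    conv_lhs => rw [eq4 b (g 0)]
    rw [g0K.1, g0K.2]; simp
  have g1e : g 1 = b.repr (g 1) 2 • b 2 + b.repr (g 1) 3 • b 3 := by
    conv_lhs => rw [eq4 b (g 1)]
    rw [g1K.1, g1K.2]; simp
  have hD : D16 ω ![b 0, b 1, g 0, g 1] := by
    refine d16 hω ?_ ?_ ?_ ?_ ?_ ?_
    · simpa using db.w01
    · simpa using dg.w01
    · show ω (b 0) (g 0) = 0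
      rw [g0e]; simp [db.w02, db.w03]
    · show ω (b 0) (g 1) = 0
      rw [g1e]; simp [db.w02, db.w03]
    · show ω (b 1) (g 0) = 0
      rw [g0e]; simp [db.w12, db.w13]
    · show ω (b 1) (g 1) = 0
      rw [g1e]; simp [db.w12, db.w13]
  obtain ⟨d, hd'⟩ := bas hd hD
  have d0 : d 0 = b 0 := hd' 0
  have d1 : d 1 = b 1 := hd' 1
  have d2 : d 2 = g 0 := hd' 2
  have d3 : d 3 = g 1 := hd' 3
  have dd : D16 ω d := by
    have : (d : Fin 4 → W) = ![b 0, b 1, g 0, g 1] := funext hd'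
    rw [this]; exact hD
  -- the values of the triples
  have H10 : h₁ (d 0) = d 0 := by rw [d0, tb.h0]
  have H11 : h₁ (d 1) = -d 1 := by rw [d1, tb.h1]
  have H12 : h₁ (d 2) = 0 := by rw [d2, g0e]; simp [tb.h2, tb.h3]
  have H13 : h₁ (d 3) = 0 := by rw [d3, g1e]; simp [tb.h2, tb.h3]
  have E10 : e₁ (d 0) = 0 := by rw [d0, tb.e0]
  have E11 : e₁ (d 1) = d 0 := by rw [d1, tb.e1, d0]
  have E12 : e₁ (d 2) = 0 := by rw [d2, g0e]; simp [tb.e2, tb.e3]
  have E13 : e₁ (d 3) = 0 := by rw [d3, g1e]; simp [tb.e2, tb.e3]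
  have F10 : f₁ (d 0) = d 1 := by rw [d0, tb.f0, d1]
  have F11 : f₁ (d 1) = 0 := by rw [d1, tb.f1]
  have F12 : f₁ (d 2) = 0 := by rw [d2, g0e]; simp [tb.f2, tb.f3]
  have F13 : f₁ (d 3) = 0 := by rw [d3, g1e]; simp [tb.f2, tb.f3]
  have H20 : h₂ (d 0) = 0 := by rw [d0, zh0]
  have H21 : h₂ (d 1) = 0 := by rw [d1, zh1]
  have H22 : h₂ (d 2) = d 2 := by rw [d2, tg.h0]
  have H23 : h₂ (d 3) = -d 3 := by rw [d3, tg.h1]
  have E20 : e₂ (d 0) = 0 := by rw [d0, ze0]
  have E21 : e₂ (d 1) = 0 := by rw [d1, ze1]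
  have E22 : e₂ (d 2) = 0 := by rw [d2, tg.e0]
  have E23 : e₂ (d 3) = d 2 := by rw [d3, tg.e1, d2]
  have F20 : f₂ (d 0) = 0 := by rw [d0, zf0]
  have F21 : f₂ (d 1) = 0 := by rw [d1, zf1]
  have F22 : f₂ (d 2) = d 3 := by rw [d2, tg.f0, d3]
  have F23 : f₂ (d 3) = 0 := by rw [d3, tg.f1]
  have hb1 : ∀ i, h₁ (d i) = (![1, -1, 0, 0] : Fin 4 → ℂ) i • d i := by
    intro i
    fin_cases i
    · simpa using H10
    · simpa using H11
    · simpa using H12
    · simpa using H13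
  have hb2 : ∀ i, h₂ (d i) = (![0, 0, 1, -1] : Fin 4 → ℂ) i • d i := by
    intro i
    fin_cases i
    · simpa using H20
    · simpa using H21
    · simpa using H22
    · simpa using H23
  have hx1 : ∀ w, h₁ (x w) = x (h₁ w) + x w := by
    intro w
    have := LinearMap.congr_fun r.hx₁ w
    simp only [LinearMap.sub_apply, Module.End.mul_apply] at this
    rw [sub_eq_iff_eq_add] at this
    rw [this]; abel
  have hx2 : ∀ w, h₂ (x w) = x (h₂ w) - x w := by
    intro w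
    have := LinearMap.congr_fun r.hx₂ w
    simp only [LinearMap.sub_apply, Module.End.mul_apply, LinearMap.neg_apply] at this
    rw [sub_eq_iff_eq_add] at this
    rw [this]; abel
  have m0 : h₁ (x (d 0)) = (2 : ℂ) • x (d 0) := by rw [hx1, H10, two_smul]
  have m3 : h₂ (x (d 3)) = (-2 : ℂ) • x (d 3) := by rw [hx2, H23, map_neg]; module
  have m1 : h₁ (x (d 1)) = (0 : ℂ) • x (d 1) := by rw [hx1, H11, map_neg]; module
  have m1' : h₂ (x (d 1)) = (-1 : ℂ) • x (d 1) := by rw [hx2, H21, map_zero]; module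
  have m2 : h₁ (x (d 2)) = (1 : ℂ) • x (d 2) := by rw [hx1, H12, map_zero]; module
  have X0 : x (d 0) = 0 := by
    rw [eq4 d (x (d 0)), eig0 hb1 m0 (i := 0) (by simp <;> norm_num), eig0 hb1 m0 (i := 1) (by simp <;> norm_num),
      eig0 hb1 m0 (i := 2) (by simp <;> norm_num), eig0 hb1 m0 (i := 3) (by simp <;> norm_num)]
    simp
  have X3 : x (d 3) = 0 := by
    rw [eq4 d (x (d 3)), eig0 hb2 m3 (i := 0) (by simp <;> norm_num), eig0 hb2 m3 (i := 1) (by simp <;> norm_num),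
      eig0 hb2 m3 (i := 2) (by simp <;> norm_num), eig0 hb2 m3 (i := 3) (by simp <;> norm_num)]
    simp
  have X1 : x (d 1) = d.repr (x (d 1)) 3 • d 3 := by
    conv_lhs => rw [eq4 d (x (d 1))]
    rw [eig0 hb1 m1 (i := 0) (by simp <;> norm_num), eig0 hb1 m1 (i := 1) (by simp <;> norm_num),
      eig0 hb2 m1' (i := 2) (by simp <;> norm_num)]
    simp
  have X2 : x (d 2) = d.repr (x (d 2)) 0 • d 0 := by
    conv_lhs => rw [eq4 d (x (d 2))]
    rw [eig0 hb1 m2 (i := 1) (by simp <;> norm_num), eig0 hb1 m2 (i := 2) (by simp <;> norm_num),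
      eig0 hb1 m2 (i := 3) (by simp <;> norm_num)]
    simp
  set c := d.repr (x (d 1)) 3 with hc
  have X2' : x (d 2) = -(c • d 0) := by
    have h1 := sx (d 1) (d 2)
    rw [X1, X2] at h1
    simp only [map_smul, LinearMap.smul_apply, dd.w32, dd.w10, smul_eq_mul] at h1
    have h2 : d.repr (x (d 2)) 0 = -c := by linear_combination -h1
    rw [X2, h2, neg_smul]
  have hcc : c * c = 1 := by
    have h1 := LinearMap.congr_fun r.z (d 0)
    rw [← r.yx] at h1
    simp only [LinearMap.sub_apply, Module.End.mul_apply, X0, E20, F10, X1, E21, E23, H10, H20, map_sub,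
      map_zero, map_smul, X2', sub_zero, zero_sub, map_neg, smul_neg, neg_neg, sub_self] at h1
    have h2 := congrArg (fun w => d.repr w 0) h1
    simpa using h2
  exact ⟨c, d, hcc, H10, H11, H12, H13, E10, E11, E12, E13, F10, F11, F12, F13, H20, H21, H22, H23,
    E20, E21, E22, E23, F20, F21, F22, F23, X0, X1, X2', X3⟩

end

end Pool.Agent.P8H88.SW
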